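import Mathlib

/-!
Riemannian metrics on a finite dimensional real vector space (a manifold with one global chart),
geodesics, and harmonic maps from round spheres.
-/

set_option autoImplicit false

open scoped ContDiff Manifold

namespace Pool.Agent.H269Z.HS

section

variable {E : Type} [NormedAddCommGroup E] [NormedSpace ℝ E]

/-- `g` is a smooth Riemannian metric on the manifold `E`; `g x v w` is the scalar product of the
tangent vectors `v`, `w` at the point `x`. It is a smooth field of symmetric positive definite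
bilinear forms. -/
structure IsRiemMetric (g : E → E → E → ℝ) : Prop where
  add_left : ∀ x v v' w, g x (v + v') w = g x v w + g x v' w
  smul_left : ∀ x (c : ℝ) v w, g x (c • v) w = c * g x v w
  symm : ∀ x v w, g x v w = g x w v
  pos : ∀ x v, v ≠ 0 → 0 < g x v v
  smooth : ∀ v w, ContDiff ℝ ∞ (fun x => g x v w)

/-- The derivative `∂_a g(b, c)` at the point `x` (`a`, `b`, `c` constant vector fields). -/
noncomputable def dmetric (g : E → E → E → ℝ) (x a b c : E) : ℝ :=
  fderiv ℝ (fun y => g y b c) x a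

/-- Christoffel symbols of the first kind (Koszul formula for the constant vector fields
`a`, `b`, `c`): the number `g(∇_a b, c) = (∂_a g(b,c) + ∂_b g(a,c) - ∂_c g(a,b)) / 2` at `x`. -/
noncomputable def koszul (g : E → E → E → ℝ) (x a b c : E) : ℝ :=
  (dmetric g x a b c + dmetric g x b a c - dmetric g x c a b) / 2

/-- The covariant acceleration of the curve `γ` at time `t`, paired with the vector `w`:
`g(D/dt γ'(t), w) = g(γ''(t), w) + g(Γ(γ'(t), γ'(t)), w)`. -/
noncomputable def covAcc (g : E → E → E → ℝ) (γ : ℝ → E) (t : ℝ) (w : E) : ℝ :=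
  g (γ t) (deriv (deriv γ) t) w + koszul g (γ t) (deriv γ t) (deriv γ t) w

/-- `γ : ℝ → E` is a geodesic of `g`: it is `C²` and `D/dt γ' = 0`. -/
def IsGeodesic (g : E → E → E → ℝ) (γ : ℝ → E) : Prop :=
  ContDiff ℝ 2 γ ∧ ∀ t w, covAcc g γ t w = 0

/-- `γ` is a closed geodesic in `V`: a non-constant periodic geodesic with image in `V`. -/
def IsClosedGeodesicIn (g : E → E → E → ℝ) (V : Set E) (γ : ℝ → E) : Prop :=
  IsGeodesic g γ ∧ (∃ T : ℝ, 0 < T ∧ Function.Periodic γ T) ∧ (∃ s t, γ s ≠ γ t) ∧ ∀ t, γ t ∈ V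

end

/-- Euclidean space `ℝ^n`. -/
abbrev Rn (n : ℕ) : Type := EuclideanSpace ℝ (Fin n)

/-- The unit sphere `S^k` in `ℝ^(k+1)`. -/
abbrev Sph (k : ℕ) : Type := Metric.sphere (0 : Rn (k + 1)) 1

/-- `e 1, …, e k` is an orthonormal basis of the tangent space `p^⊥` of the round sphere `S^k` at
`p`, and `c i` is the unit speed geodesic (great circle) `t ↦ cos t • p + sin t • e i` of the round
sphere through `p` in the direction `e i`. -/
def IsGreatCircleFrame {k : ℕ} (p : Sph k) (e : Fin k → Rn (k + 1)) (c : Fin k → ℝ → Sph k) :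
    Prop :=
  Orthonormal ℝ e ∧ (∀ i, inner ℝ p.1 (e i) = 0) ∧
    ∀ i t, (c i t).1 = Real.cos t • p.1 + Real.sin t • e i

/-- `φ : S^k → (E, g)` is a harmonic map from the round sphere: `φ` is smooth and its tension
field `τ(φ) = tr ∇dφ` vanishes. At a point `p`, with an orthonormal basis `e 1, …, e k` of the
tangent space and the great circles `c i` through `p` in the directions `e i`,
`(∇dφ)(e i, e i) = D/dt (φ ∘ c i)'(0)`, and `τ(φ)(p)` is the sum of these vectors over `i`; it
vanishes iff its `g`-pairing with every vector `w` does. -/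
def IsHarmonicSphere {E : Type} [NormedAddCommGroup E] [NormedSpace ℝ E] {k : ℕ}
    (g : E → E → E → ℝ) (φ : Sph k → E) : Prop :=
  ContMDiff (𝓡 k) 𝓘(ℝ, E) ∞ φ ∧
    ∀ (p : Sph k) (e : Fin k → Rn (k + 1)) (c : Fin k → ℝ → Sph k), IsGreatCircleFrame p e c →
      ∀ w, ∑ i, covAcc g (fun t => φ (c i t)) 0 w = 0

end Pool.Agent.H269Z.HS
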