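import Pool.Agent.H269Z.HS.Metric

set_option autoImplicit false

open scoped ContDiff Manifold RealInnerProductSpace

namespace Pool.Agent.H269Z.HS

lemma rho_sph (p : Sph 2) : rho (p : Rn 3) = 0 := by
  have h : ‖(p : Rn 3)‖ = 1 := by simp
  unfold rho
  rw [real_inner_self_eq_norm_sq, h]; simp

lemma parseval (p a b : Rn 3) (hp : ⟪p, p⟫ = 1) (ha : ⟪a, a⟫ = 1) (hb : ⟪b, b⟫ = 1)
    (hab : ⟪a, b⟫ = 0) (hpa : ⟪p, a⟫ = 0) (hpb : ⟪p, b⟫ = 0) :
    p 2 ^ 2 + a 2 ^ 2 + b 2 ^ 2 = 1 := by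
  rw [inner_eq] at hp ha hb hab hpa hpb
  let Q : Matrix (Fin 3) (Fin 3) ℝ := !![p 0, p 1, p 2; a 0, a 1, a 2; b 0, b 1, b 2]
  have h1 : Q * Q.transpose = 1 := by
    ext i j
    fin_cases i <;> fin_cases j <;>
      simp [Q, Matrix.mul_apply, Fin.sum_univ_three] <;> linarith
  have h2 : Q.transpose * Q = 1 := mul_eq_one_comm.1 h1
  have h3 := congrFun (congrFun h2 2) 2
  simp [Q, Matrix.mul_apply, Fin.sum_univ_three] at h3
  linarith

lemma gc_deriv (p e : Rn 3) :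
    deriv (fun t : ℝ => Real.cos t • p + Real.sin t • e) =
      fun t => (-Real.sin t) • p + Real.cos t • e := by
  funext t
  exact (((Real.hasDerivAt_cos t).smul_const p).add ((Real.hasDerivAt_sin t).smul_const e)).deriv

lemma gc_deriv2 (p e : Rn 3) :
    deriv (fun t : ℝ => (-Real.sin t) • p + Real.cos t • e) 0 = -p := by
  have := (((Real.hasDerivAt_sin 0).neg.smul_const p).add
    ((Real.hasDerivAt_cos 0).smul_const e)).deriv
  simpa using this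

lemma covAcc_gc (p e w : Rn 3) (hp : rho p = 0) (he : ⟪e, e⟫ = 1) (hpe : ⟪p, e⟫ = 0) :
    covAcc gg (fun t : ℝ => Real.cos t • p + Real.sin t • e) 0 w =
      ⟪p, w⟫ * (p 2 ^ 2 + 2 * e 2 ^ 2 - 1) := by
  unfold covAcc
  rw [gc_deriv, gc_deriv2]
  simp only [Real.cos_zero, Real.sin_zero, one_smul, zero_smul, add_zero, neg_zero, zero_add]
  rw [koszul_sph p e w hp hpe, gg_apply, al_sph p hp, be_sph p hp, he, inner_neg_left]
  ring

lemma coe_smooth (k : ℕ) :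
    ContMDiff (𝓡 k) 𝓘(ℝ, Rn (k + 1)) ∞ (fun p : Sph k => (p : Rn (k + 1))) := by
  have : Fact (Module.finrank ℝ (Rn (k + 1)) = k + 1) := ⟨by simp⟩
  exact contMDiff_coe_sphere

lemma incl_harmonic : IsHarmonicSphere (k := 2) gg (fun p : Sph 2 => (p : Rn 3)) := by
  refine ⟨coe_smooth 2, ?_⟩
  rintro p e c ⟨he, hpe, hc⟩ w
  have hp := rho_sph p
  have hpp : ⟪(p : Rn 3), (p : Rn 3)⟫ = 1 := by unfold rho at hp; linarith
  have h1 : ∀ i, ⟪e i, e i⟫ = 1 := fun i => by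
    rw [real_inner_self_eq_norm_sq, he.1 i]; simp
  have h2 : ⟪e 0, e 1⟫ = 0 := he.2 (by decide)
  have hs := parseval p (e 0) (e 1) hpp (h1 0) (h1 1) h2 (hpe 0) (hpe 1)
  have hc' : ∀ i, (fun t => ((c i t : Sph 2) : Rn 3)) =
      fun t : ℝ => Real.cos t • (p : Rn 3) + Real.sin t • e i := fun i => funext (hc i)
  rw [Fin.sum_univ_two, hc' 0, hc' 1, covAcc_gc _ _ _ hp (h1 0) (hpe 0),
    covAcc_gc _ _ _ hp (h1 1) (hpe 1)]
  linear_combination 2 * ⟪(p : Rn 3), w⟫ * hs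

end Pool.Agent.H269Z.HS
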