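import Pool.Agent.H269Z.HS.Metric

set_option autoImplicit false

open scoped ContDiff Manifold RealInnerProductSpace

namespace Pool.Agent.H269Z.HS

/-- Lyapunov polynomial in `z = x₃`, `y = v₃`, `w = |v|²`, `s = ⟨x,v⟩`. -/
def F0 (z y w s : ℝ) : ℝ :=
  (4 * w - 30 * (z ^ 2 * w + (y - z * s) ^ 2)) * s
    + (19 * w - 30 * (z ^ 2 * w + (y - z * s) ^ 2)) * (2 * z * (y - z * s))
    + 72 * w * s * z ^ 2 + 9 * w * z ^ 2 * (2 * z * (y - z * s))

/-- its total derivative, for `z' = y`, `y' = a`, `w' = wd`, `s' = sd` -/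
def G0 (z y w s a wd sd : ℝ) : ℝ :=
  let A := y - z * s
  let Ad := a - y * s - z * sd
  let M := z ^ 2 * w + A ^ 2
  let Md := 2 * z * y * w + z ^ 2 * wd + 2 * A * Ad
  let B := 2 * z * A
  let Bd := 2 * y * A + 2 * z * Ad
  (4 * wd - 30 * Md) * s + (4 * w - 30 * M) * sd + (19 * wd - 30 * Md) * B + (19 * w - 30 * M) * Bd
    + 72 * (wd * s * z ^ 2 + w * sd * z ^ 2 + w * s * (2 * z * y))
    + 9 * (wd * z ^ 2 * B + w * (2 * z * y) * B + w * z ^ 2 * Bd)

lemma F0_deriv {z y w s : ℝ → ℝ} {a wd sd t : ℝ} (hz : HasDerivAt z (y t) t)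
    (hy : HasDerivAt y a t) (hw : HasDerivAt w wd t) (hs : HasDerivAt s sd t) :
    HasDerivAt (fun t => F0 (z t) (y t) (w t) (s t)) (G0 (z t) (y t) (w t) (s t) a wd sd) t := by
  have hA := hy.fun_sub (hz.fun_mul hs)
  have hz2 := hz.fun_pow 2
  have hM := (hz2.fun_mul hw).fun_add (hA.fun_pow 2)
  have hB := (hz.const_mul 2).fun_mul hA
  have h1 := ((hw.const_mul 4).fun_sub (hM.const_mul 30)).fun_mul hs
  have h2 := ((hw.const_mul 19).fun_sub (hM.const_mul 30)).fun_mul hB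
  have h3 := ((hw.const_mul 72).fun_mul hs).fun_mul hz2
  have h4 := ((hw.const_mul 9).fun_mul hz2).fun_mul hB
  have h := ((h1.fun_add h2).fun_add h3).fun_add h4
  refine HasDerivAt.congr_deriv h ?_
  unfold G0
  simp only [Nat.cast_ofNat, Nat.add_one_sub_one, pow_one]
  ring

lemma G0_sph (z y w k : ℝ) (hk : k = -(z ^ 2 * w + 2 * y ^ 2)) :
    G0 z y w 0 (z * k) 0 (w + k) = 4 * w ^ 2 := by
  subst hk
  unfold G0
  ring

lemma G0_hom (z y w s a wd sd c : ℝ) :
    G0 z (c * y) (c ^ 2 * w) (c * s) (c ^ 2 * a) (c ^ 3 * wd) (c ^ 2 * sd) =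
      c ^ 4 * G0 z y w s a wd sd := by
  unfold G0
  ring

/-- the unit vector `e₃` -/
noncomputable def e3 : Rn 3 := EuclideanSpace.single 2 1

/-- third component of the acceleration -/
noncomputable def az (x v : Rn 3) : ℝ := -koszul gg x v v e3 / (al x + be x)

/-- `⟨a, y⟩` for the acceleration `a` -/
noncomputable def ay (x v y : Rn 3) : ℝ := (-koszul gg x v v y - be x * (az x v * y 2)) / al x

noncomputable def GG0 (x v : Rn 3) : ℝ :=
  G0 (x 2) (v 2) ⟪v, v⟫ ⟪x, v⟫ (az x v) (2 * ay x v v) (⟪v, v⟫ + ay x v x)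

noncomputable def GG1 (x v : Rn 3) : ℝ :=
  2 * ⟪x, v⟫ * ⟪x, v⟫ * ⟪v, v⟫ + rho x * (⟪v, v⟫ + ay x v x) * ⟪v, v⟫
    + rho x * ⟪x, v⟫ * (2 * ay x v v)

lemma al_pos (x : Rn 3) : 0 < al x := by linarith [(al_bounds x).1]
lemma albe_pos (x : Rn 3) : 0 < al x + be x := by linarith [(albe_bounds x).1]

lemma koszul_smul (x v y : Rn 3) (c : ℝ) :
    koszul gg x (c • v) (c • v) y = c ^ 2 * koszul gg x v v y := by
  simp only [koszul_gg, map_smul, smul_eq_mul, PiLp.smul_apply, inner_smul_left, inner_smul_right,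
    conj_trivial]
  ring

lemma koszul_smul' (x v y : Rn 3) (c : ℝ) :
    koszul gg x v v (c • y) = c * koszul gg x v v y := by
  simp only [koszul_gg, map_smul, smul_eq_mul, PiLp.smul_apply, inner_smul_left, inner_smul_right,
    conj_trivial]
  ring

lemma az_smul (x v : Rn 3) (c : ℝ) : az x (c • v) = c ^ 2 * az x v := by
  unfold az; rw [koszul_smul]; ring

lemma ay_smul (x v y : Rn 3) (c : ℝ) : ay x (c • v) y = c ^ 2 * ay x v y := by
  unfold ay; rw [koszul_smul, az_smul]; ring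

lemma ay_smul' (x v y : Rn 3) (c : ℝ) : ay x v (c • y) = c * ay x v y := by
  unfold ay; rw [koszul_smul']; simp only [PiLp.smul_apply, smul_eq_mul]; ring

lemma GG0_smul (x v : Rn 3) (c : ℝ) : GG0 x (c • v) = c ^ 4 * GG0 x v := by
  unfold GG0
  rw [← G0_hom, az_smul, ay_smul, ay_smul, ay_smul']
  simp only [PiLp.smul_apply, smul_eq_mul, inner_smul_left, inner_smul_right, conj_trivial]
  congr 1 <;> ring

lemma GG1_smul (x v : Rn 3) (c : ℝ) : GG1 x (c • v) = c ^ 4 * GG1 x v := by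
  unfold GG1
  rw [ay_smul, ay_smul, ay_smul']
  simp only [inner_smul_left, inner_smul_right, conj_trivial]
  ring

lemma inner_e3 (x : Rn 3) : ⟪x, e3⟫ = x 2 := by
  unfold e3; rw [inner_eq]; simp

lemma e3_two : e3 2 = 1 := by unfold e3; simp

lemma GG0_sph (x v : Rn 3) (hx : rho x = 0) (hv : ⟪x, v⟫ = 0) : GG0 x v = 4 * ⟪v, v⟫ ^ 2 := by
  have hxx : ⟪x, x⟫ = 1 := by unfold rho at hx; linarith
  have h1 : az x v = x 2 * -(x 2 ^ 2 * ⟪v, v⟫ + 2 * v 2 ^ 2) := by
    unfold az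
    rw [koszul_sph x v _ hx hv, al_sph x hx, be_sph x hx, inner_e3]; ring
  have h2 : ay x v v = 0 := by
    unfold ay
    rw [koszul_sph x v _ hx hv, al_sph x hx, be_sph x hx, hv]; ring
  have h3 : ay x v x = -(x 2 ^ 2 * ⟪v, v⟫ + 2 * v 2 ^ 2) := by
    unfold ay
    rw [koszul_sph x v _ hx hv, al_sph x hx, be_sph x hx, hxx]; ring
  unfold GG0
  rw [h1, h2, h3, hv, mul_zero]
  exact G0_sph _ _ _ _ rfl

lemma GG1_sph (x v : Rn 3) (hx : rho x = 0) : GG1 x v = 2 * ⟪x, v⟫ ^ 2 * ⟪v, v⟫ := by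
  unfold GG1; rw [hx]; ring

lemma koszul_cont {X : Type} [TopologicalSpace X] {x v y : X → Rn 3} (hx : Continuous x)
    (hv : Continuous v) (hy : Continuous y) :
    Continuous (fun p => koszul gg (x p) (v p) (v p) (y p)) := by
  simp only [koszul_gg]
  have ha : Continuous (fderiv ℝ al) := al_smooth.continuous_fderiv (by simp)
  have hb : Continuous (fderiv ℝ be) := be_smooth.continuous_fderiv (by simp)
  have h1 : Continuous (fun p => fderiv ℝ al (x p) (v p)) := (ha.comp hx).clm_apply hv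
  have h2 : Continuous (fun p => fderiv ℝ be (x p) (v p)) := (hb.comp hx).clm_apply hv
  have h3 : Continuous (fun p => fderiv ℝ al (x p) (y p)) := (ha.comp hx).clm_apply hy
  have h4 : Continuous (fun p => fderiv ℝ be (x p) (y p)) := (hb.comp hx).clm_apply hy
  have h5 : Continuous (fun p => v p 2) := z_smooth.continuous.comp hv
  have h6 : Continuous (fun p => y p 2) := z_smooth.continuous.comp hy
  have h7 : Continuous (fun p => ⟪v p, y p⟫) := hv.inner hy
  have h8 : Continuous (fun p => ⟪v p, v p⟫) := hv.inner hv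
  exact ((h1.mul h7).add (h2.mul (h5.mul h6))).sub
    (((h3.mul h8).add (h4.mul (h5.mul h5))).div_const 2)

lemma az_cont : Continuous (fun p : Rn 3 × Rn 3 => az p.1 p.2) := by
  unfold az
  exact (koszul_cont continuous_fst continuous_snd continuous_const).neg.div
    ((al_smooth.continuous.comp continuous_fst).add (be_smooth.continuous.comp continuous_fst))
    (fun p => (albe_pos p.1).ne')

lemma ay_cont {y : Rn 3 × Rn 3 → Rn 3} (hy : Continuous y) :
    Continuous (fun p : Rn 3 × Rn 3 => ay p.1 p.2 (y p)) := by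
  unfold ay
  exact ((koszul_cont continuous_fst continuous_snd hy).neg.sub
    ((be_smooth.continuous.comp continuous_fst).mul (az_cont.mul
      (z_smooth.continuous.comp hy)))).div
    (al_smooth.continuous.comp continuous_fst) (fun p => (al_pos p.1).ne')

lemma GG0_cont : Continuous (fun p : Rn 3 × Rn 3 => GG0 p.1 p.2) := by
  have h1 : Continuous (fun p : Rn 3 × Rn 3 => p.1 2) := z_smooth.continuous.comp continuous_fst
  have h2 : Continuous (fun p : Rn 3 × Rn 3 => p.2 2) := z_smooth.continuous.comp continuous_snd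
  have h3 : Continuous (fun p : Rn 3 × Rn 3 => ⟪p.2, p.2⟫) := continuous_snd.inner continuous_snd
  have h4 : Continuous (fun p : Rn 3 × Rn 3 => ⟪p.1, p.2⟫) := continuous_fst.inner continuous_snd
  have h5 := az_cont
  have h6 := continuous_const (y := (2 : ℝ)).mul (ay_cont continuous_snd)
  have h7 := h3.add (ay_cont continuous_fst)
  have hG : Continuous (fun q : ℝ × ℝ × ℝ × ℝ × ℝ × ℝ × ℝ =>
      G0 q.1 q.2.1 q.2.2.1 q.2.2.2.1 q.2.2.2.2.1 q.2.2.2.2.2.1 q.2.2.2.2.2.2) := by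
    unfold G0
    fun_prop
  exact hG.comp (h1.prodMk (h2.prodMk (h3.prodMk (h4.prodMk (h5.prodMk (h6.prodMk h7))))))

lemma GG1_cont : Continuous (fun p : Rn 3 × Rn 3 => GG1 p.1 p.2) := by
  have h3 : Continuous (fun p : Rn 3 × Rn 3 => ⟪p.2, p.2⟫) := continuous_snd.inner continuous_snd
  have h4 : Continuous (fun p : Rn 3 × Rn 3 => ⟪p.1, p.2⟫) := continuous_fst.inner continuous_snd
  have h6 := continuous_const (y := (2 : ℝ)).mul (ay_cont continuous_snd)
  have h7 := h3.add (ay_cont continuous_fst)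
  have h8 : Continuous (fun p : Rn 3 × Rn 3 => rho p.1) :=
    rho_smooth.continuous.comp continuous_fst
  unfold GG1
  exact ((((continuous_const.mul h4).mul h4).mul h3).add ((h8.mul h7).mul h3)).add
    ((h8.mul h4).mul h6)

lemma sph_iff (x : Rn 3) (hx : x ∈ Metric.sphere (0 : Rn 3) 1) : ⟪x, x⟫ = 1 := by
  have h : ‖x‖ = 1 := by simpa using hx
  rw [real_inner_self_eq_norm_sq, h]; simp

lemma nbhd_abstract {E : Type} [TopologicalSpace E] (S : Set E) (hSc : IsCompact S)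
    (A B : E × E → ℝ) (hA : Continuous A) (hB : Continuous B) (h0 : ∀ p ∈ S ×ˢ S, 0 ≤ B p)
    (h1 : ∀ p ∈ S ×ˢ S, B p = 0 → 0 < A p) :
    ∃ (N : ℕ) (V : Set E), IsOpen V ∧ S ⊆ V ∧ ∀ x ∈ V, ∀ v ∈ S, 0 < A (x, v) + N * B (x, v) := by
  let U : ℕ → Set (E × E) := fun n => {p | 0 < A p + n * B p}
  have hU : ∀ n, IsOpen (U n) := fun n =>
    isOpen_lt continuous_const (hA.add (continuous_const.mul hB))
  have hcov : S ×ˢ S ⊆ ⋃ n, U n := by
    intro p hp
    rw [Set.mem_iUnion]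
    rcases (h0 p hp).eq_or_lt with h | h
    · refine ⟨0, ?_⟩
      show 0 < A p + ((0 : ℕ) : ℝ) * B p
      simpa using h1 p hp h.symm
    · obtain ⟨n, hn⟩ := exists_nat_gt (-A p / B p)
      refine ⟨n, ?_⟩
      show 0 < A p + (n : ℝ) * B p
      rw [div_lt_iff₀ h] at hn
      linarith
  obtain ⟨t, ht⟩ := (hSc.prod hSc).elim_finite_subcover U hU hcov
  have hN : S ×ˢ S ⊆ U (t.sup id) := by
    intro p hp
    obtain ⟨n, hn, hpn⟩ := Set.mem_iUnion₂.1 (ht hp)
    have h1 : n ≤ t.sup id := Finset.le_sup (f := id) hn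
    have h2 : (n : ℝ) ≤ (t.sup id : ℕ) := by exact_mod_cast h1
    have h3 : 0 ≤ B p := h0 p hp
    have h4 : 0 < A p + (n : ℝ) * B p := hpn
    show 0 < A p + ((t.sup id : ℕ) : ℝ) * B p
    nlinarith [mul_le_mul_of_nonneg_right h2 h3]
  obtain ⟨V, W, hV, -, hSV, hSW, hVW⟩ := generalized_tube_lemma hSc hSc (hU _) hN
  exact ⟨t.sup id, V, hV, hSV, fun x hx v hv => hVW (Set.mk_mem_prod hx (hSW hv))⟩

lemma exists_nbhd : ∃ (N : ℕ) (V : Set (Rn 3)), IsOpen V ∧ Metric.sphere (0 : Rn 3) 1 ⊆ V ∧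
    ∀ x ∈ V, ∀ v : Rn 3, v ≠ 0 → 0 < GG0 x v + N * GG1 x v := by
  have hr : ∀ x ∈ Metric.sphere (0 : Rn 3) 1, rho x = 0 := fun x hx => by
    unfold rho; rw [sph_iff x hx]; simp
  have hG1 : ∀ x ∈ Metric.sphere (0 : Rn 3) 1, ∀ v ∈ Metric.sphere (0 : Rn 3) 1,
      GG1 x v = 2 * ⟪x, v⟫ ^ 2 := fun x hx v hv => by
    rw [GG1_sph _ _ (hr _ hx), sph_iff _ hv, mul_one]
  obtain ⟨N, V, hV, hSV, h⟩ := nbhd_abstract (Metric.sphere (0 : Rn 3) 1) (isCompact_sphere _ _)
    _ _ GG0_cont GG1_cont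
    (fun p hp => by
      show 0 ≤ GG1 p.1 p.2
      rw [hG1 _ hp.1 _ hp.2]; positivity)
    (fun p hp h => by
      have h' : GG1 p.1 p.2 = 0 := h
      rw [hG1 _ hp.1 _ hp.2] at h'
      have h2 : ⟪p.1, p.2⟫ = 0 := by simpa using h'
      show 0 < GG0 p.1 p.2
      rw [GG0_sph _ _ (hr _ hp.1) h2, sph_iff _ hp.2]; norm_num)
  refine ⟨N, V, hV, hSV, ?_⟩
  intro x hx v hv
  have hn : 0 < ‖v‖ := norm_pos_iff.2 hv
  have hu : (‖v‖⁻¹ • v) ∈ Metric.sphere (0 : Rn 3) 1 := by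
    rw [mem_sphere_zero_iff_norm, norm_smul, norm_inv, norm_norm, inv_mul_cancel₀ hn.ne']
  have h1 : 0 < GG0 x (‖v‖⁻¹ • v) + (N : ℝ) * GG1 x (‖v‖⁻¹ • v) := h x hx _ hu
  rw [GG0_smul, GG1_smul] at h1
  have h2 : 0 < ‖v‖⁻¹ ^ 4 := by positivity
  have h3 : 0 < ‖v‖⁻¹ ^ 4 * (GG0 x v + (N : ℝ) * GG1 x v) := by linarith
  exact (pos_iff_pos_of_mul_pos h3).1 h2

/-- the acceleration of a geodesic -/
lemma acc_formulas (x v a : Rn 3) (h : ∀ w, gg x a w + koszul gg x v v w = 0) :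
    a 2 = az x v ∧ ∀ y, ⟪a, y⟫ = ay x v y := by
  have h1 : a 2 = az x v := by
    have := h e3
    rw [gg_apply, inner_e3, e3_two] at this
    unfold az
    rw [eq_div_iff (albe_pos x).ne']
    linarith
  refine ⟨h1, fun y => ?_⟩
  have := h y
  rw [gg_apply, h1] at this
  unfold ay
  rw [eq_div_iff (al_pos x).ne']
  linarith

/-- The Lyapunov function -/
noncomputable def FF (N : ℝ) (x v : Rn 3) : ℝ :=
  F0 (x 2) (v 2) ⟪v, v⟫ ⟪x, v⟫ + N * (rho x * ⟪x, v⟫ * ⟪v, v⟫)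

lemma FF_deriv (N : ℝ) {x v : ℝ → Rn 3} {a : Rn 3} {t : ℝ} (hx : HasDerivAt x (v t) t)
    (hv : HasDerivAt v a t) (h : ∀ w, gg (x t) a w + koszul gg (x t) (v t) (v t) w = 0) :
    HasDerivAt (fun t => FF N (x t) (v t)) (GG0 (x t) (v t) + N * GG1 (x t) (v t)) t := by
  obtain ⟨h1, h2⟩ := acc_formulas _ _ _ h
  have hz : HasDerivAt (fun t => x t 2) (v t 2) t :=
    (EuclideanSpace.proj (2 : Fin 3) : Rn 3 →L[ℝ] ℝ).hasFDerivAt.comp_hasDerivAt t hx
  have hy : HasDerivAt (fun t => v t 2) (az (x t) (v t)) t := by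
    rw [← h1]
    exact (EuclideanSpace.proj (2 : Fin 3) : Rn 3 →L[ℝ] ℝ).hasFDerivAt.comp_hasDerivAt t hv
  have hw : HasDerivAt (fun t => ⟪v t, v t⟫) (2 * ay (x t) (v t) (v t)) t := by
    refine HasDerivAt.congr_deriv (hv.inner ℝ hv) ?_
    rw [← h2, real_inner_comm]; ring
  have hs : HasDerivAt (fun t => ⟪x t, v t⟫) (⟪v t, v t⟫ + ay (x t) (v t) (x t)) t := by
    refine HasDerivAt.congr_deriv (hx.inner ℝ hv) ?_
    rw [← h2, real_inner_comm]; ring
  have hr : HasDerivAt (fun t => rho (x t)) (2 * ⟪x t, v t⟫) t := by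
    refine HasDerivAt.congr_deriv ((hx.inner ℝ hx).sub_const 1) ?_
    rw [real_inner_comm]; ring
  have hF := F0_deriv (z := fun t => x t 2) (y := fun t => v t 2) hz hy hw hs
  have hG := ((hr.fun_mul hs).fun_mul hw).const_mul N
  refine HasDerivAt.congr_deriv (hF.fun_add hG) ?_
  unfold GG0 GG1
  ring

theorem no_closed : ∃ V : Set (Rn 3), IsOpen V ∧ Metric.sphere (0 : Rn 3) 1 ⊆ V ∧
    ¬ ∃ γ, IsClosedGeodesicIn gg V γ := by
  obtain ⟨N, V, hV, hSV, hpos⟩ := exists_nbhd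
  refine ⟨V, hV, hSV, ?_⟩
  rintro ⟨γ, ⟨hc, hgeo⟩, ⟨T, hT, hper⟩, ⟨s, t, hst⟩, hin⟩
  have hd1 : Differentiable ℝ γ := hc.differentiable (by simp)
  have hc1 : ContDiff ℝ 1 (deriv γ) := by
    have : ContDiff ℝ (1 + 1) γ := hc
    exact this.deriv'
  have hd2 : Differentiable ℝ (deriv γ) := hc1.differentiable (by simp)
  let f : ℝ → ℝ := fun t => FF N (γ t) (deriv γ t)
  have hf : ∀ t, HasDerivAt f (GG0 (γ t) (deriv γ t) + N * GG1 (γ t) (deriv γ t)) t := fun t =>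
    FF_deriv N (hd1 t).hasDerivAt (hd2 t).hasDerivAt (hgeo t)
  have hnn : ∀ t, 0 ≤ deriv f t := fun t => by
    rw [(hf t).deriv]
    by_cases h : deriv γ t = 0
    · rw [h]
      have e0 := GG0_smul (γ t) 0 0
      have e1 := GG1_smul (γ t) 0 0
      rw [smul_zero] at e0 e1
      rw [e0, e1]; simp
    · exact (hpos _ (hin t) _ h).le
  have hmono : Monotone f := monotone_of_deriv_nonneg (fun t => (hf t).differentiableAt) hnn
  have hperd : Function.Periodic (deriv γ) T := by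
    intro u
    have : (fun u => γ (u + T)) = γ := funext hper
    rw [← deriv_comp_add_const, this]
  have hfp : Function.Periodic f T := fun u => by
    show FF N (γ (u + T)) (deriv γ (u + T)) = FF N (γ u) (deriv γ u)
    rw [hper u, hperd u]
  have hz : ∀ u, deriv γ u = 0 := by
    intro u
    by_contra hne
    have hp := hpos _ (hin u) _ hne
    have hloc : f =ᶠ[nhds u] fun _ => f u := by
      have : Set.Ioo (u - T) (u + T) ∈ nhds u := Ioo_mem_nhds (by linarith) (by linarith)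
      filter_upwards [this] with r hr
      have a1 : f (u - T) ≤ f r := hmono hr.1.le
      have a2 : f r ≤ f (u + T) := hmono hr.2.le
      rw [hfp u] at a2
      rw [hfp.sub_eq u] at a1
      exact le_antisymm a2 a1
    have h0 : HasDerivAt f 0 u := (hasDerivAt_const u (f u)).congr_of_eventuallyEq hloc
    have := (hf u).unique h0
    linarith
  exact hst (is_const_of_deriv_eq_zero hd1 hz s t)

end Pool.Agent.H269Z.HS
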