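import Pool.Agent.H269Z.HS.Harm
import Pool.Agent.H269Z.HS.Lyap

set_option autoImplicit false

namespace Pool.Agent.H269Z.HS

theorem main : ∃ g : Rn 3 → Rn 3 → Rn 3 → ℝ, IsRiemMetric g ∧
    (∀ x v, ‖v‖ ^ 2 / 2 ≤ g x v v ∧ g x v v ≤ 2 * ‖v‖ ^ 2) ∧
    ∃ V : Set (Rn 3), IsOpen V ∧ (¬ ∃ γ, IsClosedGeodesicIn g V γ) ∧
      ∃ φ : Sph 2 → Rn 3, IsHarmonicSphere g φ ∧ (∃ p q, φ p ≠ φ q) ∧ ∀ p, φ p ∈ V := by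
  obtain ⟨V, hV, hSV, hno⟩ := no_closed
  refine ⟨gg, gg_metric, gg_bounds, V, hV, hno, fun p : Sph 2 => (p : Rn 3), incl_harmonic, ?_,
    fun p => hSV p.2⟩
  have h1 : e3 ∈ Metric.sphere (0 : Rn 3) 1 := by simp [e3]
  have h2 : -e3 ∈ Metric.sphere (0 : Rn 3) 1 := by simp [e3]
  refine ⟨⟨e3, h1⟩, ⟨-e3, h2⟩, fun h => ?_⟩
  have h3 : e3 2 = (-e3) 2 := congrArg (fun x : Rn 3 => x 2) h
  rw [PiLp.neg_apply, e3_two] at h3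
  norm_num at h3

end Pool.Agent.H269Z.HS
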