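import Pool.Agent.H269Z.HS.Defs

set_option autoImplicit false

open scoped ContDiff Manifold RealInnerProductSpace

namespace Pool.Agent.H269Z.HS

/-- `|x|^2 - 1` -/
noncomputable def rho (x : Rn 3) : ℝ := ⟪x, x⟫ - 1

noncomputable def chi (x : Rn 3) : ℝ := rho x / (1 + 12 * rho x ^ 2)

noncomputable def al (x : Rn 3) : ℝ := 1 - chi x * x 2 ^ 2

noncomputable def be (x : Rn 3) : ℝ := -2 * chi x

noncomputable def II : Rn 3 →L[ℝ] Rn 3 →L[ℝ] ℝ := innerSL ℝ

lemma II_apply (v w : Rn 3) : II v w = ⟪v, w⟫ := rfl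

noncomputable def gg (x v w : Rn 3) : ℝ := al x * ⟪v, w⟫ + be x * (v 2 * w 2)

lemma gg_apply (x v w : Rn 3) : gg x v w = al x * ⟪v, w⟫ + be x * (v 2 * w 2) := rfl

lemma rho_smooth : ContDiff ℝ ∞ rho := by
  unfold rho
  exact (contDiff_id.inner ℝ contDiff_id).sub contDiff_const

lemma den_pos (x : Rn 3) : 0 < 1 + 12 * rho x ^ 2 := by positivity

lemma chi_smooth : ContDiff ℝ ∞ chi := by
  unfold chi
  exact rho_smooth.div (contDiff_const.add (contDiff_const.mul (rho_smooth.pow 2)))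
    (fun x => (den_pos x).ne')

lemma z_smooth : ContDiff ℝ ∞ (fun x : Rn 3 => x 2) :=
  (EuclideanSpace.proj (2 : Fin 3) : Rn 3 →L[ℝ] ℝ).contDiff

lemma al_smooth : ContDiff ℝ ∞ al := by
  unfold al
  exact contDiff_const.sub (chi_smooth.mul (z_smooth.pow 2))

lemma be_smooth : ContDiff ℝ ∞ be := by
  unfold be
  exact contDiff_const.mul chi_smooth

lemma gg_smooth (v w : Rn 3) : ContDiff ℝ ∞ (fun x => gg x v w) :=
  (al_smooth.mul contDiff_const).add (be_smooth.mul contDiff_const)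

lemma inner_eq (v w : Rn 3) : ⟪v, w⟫ = v 0 * w 0 + v 1 * w 1 + v 2 * w 2 := by
  simp [PiLp.inner_apply, Fin.sum_univ_three]; ring

lemma chi_bound (x : Rn 3) : |chi x| * (2 + x 2 ^ 2) ≤ 1 / 2 := by
  have h1 : x 2 ^ 2 ≤ rho x + 1 := by
    unfold rho; rw [inner_eq]; nlinarith [sq_nonneg (x 0), sq_nonneg (x 1)]
  have hd := den_pos x
  unfold chi
  rw [abs_div, abs_of_pos hd, div_mul_eq_mul_div, div_le_iff₀ hd]
  have h2 : |rho x| * (2 + x 2 ^ 2) ≤ |rho x| * (3 + |rho x|) := by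
    apply mul_le_mul_of_nonneg_left _ (abs_nonneg _)
    linarith [le_abs_self (rho x)]
  have h3 : rho x ^ 2 = |rho x| ^ 2 := (sq_abs _).symm
  rw [h3]
  nlinarith [sq_nonneg (|rho x| - 3 / 10)]

lemma al_bounds (x : Rn 3) : 1 / 2 ≤ al x ∧ al x ≤ 3 / 2 := by
  have h := chi_bound x
  have h0 : |chi x * x 2 ^ 2| ≤ 1 / 2 := by
    rw [abs_mul, abs_of_nonneg (sq_nonneg (x 2))]
    nlinarith [abs_nonneg (chi x)]
  have := abs_le.1 h0
  unfold al
  constructor <;> linarith [this.1, this.2]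

lemma albe_bounds (x : Rn 3) : 1 / 2 ≤ al x + be x ∧ al x + be x ≤ 3 / 2 := by
  have h := chi_bound x
  have h0 : |chi x * (2 + x 2 ^ 2)| ≤ 1 / 2 := by
    rw [abs_mul, abs_of_nonneg (by positivity : (0:ℝ) ≤ 2 + x 2 ^ 2)]
    exact h
  have := abs_le.1 h0
  unfold al be
  constructor <;> nlinarith [this.1, this.2]

lemma gg_bounds (x v : Rn 3) : ‖v‖ ^ 2 / 2 ≤ gg x v v ∧ gg x v v ≤ 2 * ‖v‖ ^ 2 := by
  rw [gg_apply, ← real_inner_self_eq_norm_sq, inner_eq]
  have h1 := al_bounds x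
  have h2 := albe_bounds x
  have e : al x * (v 0 * v 0 + v 1 * v 1 + v 2 * v 2) + be x * (v 2 * v 2) =
      al x * (v 0 ^ 2 + v 1 ^ 2) + (al x + be x) * v 2 ^ 2 := by ring
  rw [e]
  have a0 : 0 ≤ v 0 ^ 2 + v 1 ^ 2 := by positivity
  have a1 : 0 ≤ v 2 ^ 2 := by positivity
  constructor
  · nlinarith [mul_le_mul_of_nonneg_right h1.1 a0, mul_le_mul_of_nonneg_right h2.1 a1]
  · nlinarith [mul_le_mul_of_nonneg_right h1.2 a0, mul_le_mul_of_nonneg_right h2.2 a1]

lemma gg_metric : IsRiemMetric gg where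
  add_left x v v' w := by
    simp only [gg_apply, inner_add_left, PiLp.add_apply]; ring
  smul_left x c v w := by
    simp only [gg_apply, inner_smul_left, PiLp.smul_apply, smul_eq_mul, conj_trivial]; ring
  smooth := gg_smooth
  symm x v w := by rw [gg_apply, gg_apply, real_inner_comm, mul_comm (v 2)]
  pos x v hv := by
    have h := (gg_bounds x v).1
    have : 0 < ‖v‖ := norm_pos_iff.2 hv
    have : 0 < ‖v‖ ^ 2 / 2 := by positivity
    linarith

lemma fderiv_gg (x a v w : Rn 3) :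
    dmetric gg x a v w = fderiv ℝ al x a * ⟪v, w⟫ + fderiv ℝ be x a * (v 2 * w 2) := by
  have h1 : HasFDerivAt al (fderiv ℝ al x) x :=
    (al_smooth.differentiable (by simp) x).hasFDerivAt
  have h2 : HasFDerivAt be (fderiv ℝ be x) x :=
    (be_smooth.differentiable (by simp) x).hasFDerivAt
  have h3 := (h1.mul_const ⟪v, w⟫).add (h2.mul_const (v 2 * w 2))
  have : fderiv ℝ (fun y => gg y v w) x = _ := h3.fderiv
  unfold dmetric
  rw [this]
  simp
  ring

lemma koszul_gg (x v w : Rn 3) :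
    koszul gg x v v w = fderiv ℝ al x v * ⟪v, w⟫ + fderiv ℝ be x v * (v 2 * w 2)
      - (fderiv ℝ al x w * ⟪v, v⟫ + fderiv ℝ be x w * (v 2 * v 2)) / 2 := by
  unfold koszul
  rw [fderiv_gg, fderiv_gg]
  ring

lemma hasFDerivAt_rho (x : Rn 3) : HasFDerivAt rho ((2 : ℝ) • II x) x := by
  have h := (hasFDerivAt_id x).inner ℝ (hasFDerivAt_id x)
  have h2 := h.sub_const 1
  refine HasFDerivAt.congr_fderiv h2 ?_
  ext a
  simp [II_apply, fderivInnerCLM_apply, real_inner_comm]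
  ring

lemma hasFDerivAt_chi (x : Rn 3) (hx : rho x = 0) : HasFDerivAt chi ((2 : ℝ) • II x) x := by
  have h : HasDerivAt (fun r : ℝ => r / (1 + 12 * r ^ 2)) 1 (rho x) := by
    have h1 : HasDerivAt (fun r : ℝ => 1 + 12 * r ^ 2) (12 * (2 * rho x)) (rho x) := by
      simpa using ((hasDerivAt_pow 2 (rho x)).const_mul 12).const_add 1
    have h2 := (hasDerivAt_id (rho x)).div h1 (den_pos x).ne'
    refine HasDerivAt.congr_deriv h2 ?_
    rw [hx]; simp
  have := h.comp_hasFDerivAt x (hasFDerivAt_rho x)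
  refine HasFDerivAt.congr_fderiv this ?_
  simp

lemma fderiv_al (x : Rn 3) (hx : rho x = 0) (a : Rn 3) :
    fderiv ℝ al x a = -2 * ⟪x, a⟫ * x 2 ^ 2 := by
  have h1 := hasFDerivAt_chi x hx
  have h2 : HasFDerivAt (fun y : Rn 3 => y 2 ^ 2) (fderiv ℝ (fun y : Rn 3 => y 2 ^ 2) x) x :=
    ((z_smooth.pow 2).differentiable (by simp) x).hasFDerivAt
  have h3 := (h1.mul h2).const_sub 1
  have : fderiv ℝ al x = _ := h3.fderiv
  rw [this]
  have hc : chi x = 0 := by unfold chi; rw [hx]; simp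
  simp [hc, II_apply]
  ring

lemma fderiv_be (x : Rn 3) (hx : rho x = 0) (a : Rn 3) :
    fderiv ℝ be x a = -4 * ⟪x, a⟫ := by
  have h1 := (hasFDerivAt_chi x hx).const_mul (-2)
  have : fderiv ℝ be x = _ := h1.fderiv
  rw [this]
  simp [II_apply]
  ring

lemma al_sph (x : Rn 3) (hx : rho x = 0) : al x = 1 := by
  unfold al chi; rw [hx]; simp

lemma be_sph (x : Rn 3) (hx : rho x = 0) : be x = 0 := by
  unfold be chi; rw [hx]; simp

/-- on the sphere, for tangent vectors -/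
lemma koszul_sph (x v w : Rn 3) (hx : rho x = 0) (hv : ⟪x, v⟫ = 0) :
    koszul gg x v v w = ⟪x, w⟫ * (x 2 ^ 2 * ⟪v, v⟫ + 2 * v 2 ^ 2) := by
  rw [koszul_gg, fderiv_al x hx, fderiv_al x hx, fderiv_be x hx, fderiv_be x hx, hv]
  ring

end Pool.Agent.H269Z.HS
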